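import Pool.Agent.Lib.MP_d48993_lc.AE.Node.Proc
import Pool.Agent.Lib.MP_d48993_lc.Cond
import Pool.Agent.Lib.MP_d48993_lc.AE.Node.All

/-!
# Module KEXT (finding 4190, K4): extraction

A path `O` all whose edges into large roots are hereditary edges of the images of the conditions
`c 0 ≤ c 1 ≤ ...`, together with the real `V` which displays the images, computes a path of the
tree `T`.
-/

set_option autoImplicit false

namespace Pool.Agent.Lib.MP_d48993_lc.Node

open MP_8c048d_lc (pre join RecF Sig Clo Cop Del)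
open Proc (vstr_pfx ch_mem take_snoc cmp_pfx wfit)

namespace Kext

/-- The situation. -/
structure KX (T : List ℕ → Prop) (δ : ℕ → Data) (V : ℕ → ℕ) (n : ℕ → ℕ) (c : ℕ → Cnd3)
    (O : ℕ → ℕ) (N : ℕ) : Prop where
  wf : ∀ m, Wf (δ m)
  fin : ∀ s, {k : ℕ | T (s ++ [k])}.Finite
  pc : PC T
  cv : ∀ l, CV (δ (n l)).W T (c l)
  le : ∀ l, CLe T (c l) (c (l + 1))
  px : ∀ l, ∃ k, (c l).1 = pre V k
  unb : ∀ k, ∃ l, k ≤ (c l).1.length
  disp : ∀ l, ∀ e ∈ (c l).2, (∃ p, (e.1, e.2.1, p) ∈ (c 0).2) ∨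
    ∃ q, (c 0).1.length ≤ q ∧ Fact (V q) e.1 e.2.1
  path : ∀ k, LE δ (pre O k)
  ke : ∀ k, N ≤ (tgt (O k)).1 → ∃ l, KE (c l) (src (O k)) (tgt (O k))

variable {T : List ℕ → Prop} {δ : ℕ → Data} {V : ℕ → ℕ} {n : ℕ → ℕ} {c : ℕ → Cnd3} {O : ℕ → ℕ}
  {N : ℕ}

/-- The images of stage `l`. -/
def Im (c : ℕ → Cnd3) (l : ℕ) (t ρ : List ℕ) : Prop := ∃ p, (t, ρ, p) ∈ (c l).2

theorem old (h : KX T δ V n c O N) {l l' : ℕ} (hl : l ≤ l') : ∀ e ∈ (c l).2,
    ∃ p', e.2.2 <+: p' ∧ (e.1, e.2.1, p') ∈ (c l').2 := by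
  induction l', hl using Nat.le_induction with
  | base => exact fun e he => ⟨e.2.2, List.prefix_refl _, he⟩
  | succ l' _ ih =>
    intro e he
    obtain ⟨p, h1, h2⟩ := ih e he
    obtain ⟨p', h3, h4⟩ := (h.le l').old _ h2
    exact ⟨p', h1.trans h3, h4⟩

theorem Im.up (h : KX T δ V n c O N) {l l' : ℕ} (hl : l ≤ l') {t ρ : List ℕ}
    (hi : Im c l t ρ) : Im c l' t ρ := by
  obtain ⟨p, hp⟩ := hi
  obtain ⟨p', -, h2⟩ := old h hl _ hp
  exact ⟨p', h2⟩

theorem nd_up (h : KX T δ V n c O N) {l l' : ℕ} (hl : l ≤ l') {ν : List ℕ}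
    (hi : Nd (c l) ν) : Nd (c l') ν := by
  obtain ⟨e, he, h1⟩ := hi
  obtain ⟨p', h2, h3⟩ := old h hl _ he
  exact ⟨_, h3, h1.trans h2⟩

theorem im_uniq (h : KX T δ V n c O N) {l : ℕ} {t ρ ρ' : List ℕ} (h1 : Im c l t ρ)
    (h2 : Im c l t ρ') : ρ = ρ' := by
  obtain ⟨p, hp⟩ := h1
  obtain ⟨p', hp'⟩ := h2
  have h3 := (h.cv l).uniq _ hp _ hp' rfl
  exact congrArg (fun e => e.2.1) h3

theorem im_emb (h : KX T δ V n c O N) {l : ℕ} {t ρ t' ρ' : List ℕ} (h1 : Im c l t ρ)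
    (h2 : Im c l t' ρ') : ρ <+: ρ' ↔ t <+: t' := by
  obtain ⟨p, hp⟩ := h1
  obtain ⟨p', hp'⟩ := h2
  exact (h.cv l).emb _ hp _ hp'

theorem im_root (h : KX T δ V n c O N) (l : ℕ) : Im c l [] [] := by
  obtain ⟨p, hp⟩ := (h.cv l).root
  exact ⟨p, hp⟩

theorem im_mem (h : KX T δ V n c O N) {l : ℕ} {t ρ : List ℕ} (h1 : Im c l t ρ) : T t := by
  obtain ⟨p, hp⟩ := h1
  exact (h.cv l).mem _ hp

/-- The nodes with images are closed under initial segments. -/
theorem im_take (h : KX T δ V n c O N) {l : ℕ} {t ρ : List ℕ} (h1 : Im c l t ρ) (j : ℕ)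
    (hj : j ≤ t.length) : ∃ ρ', Im c l (t.take j) ρ' := by
  obtain ⟨i, hi⟩ : ∃ i, t.length = j + i := ⟨t.length - j, by omega⟩
  induction i generalizing t ρ with
  | zero => exact ⟨ρ, by rw [List.take_of_length_le (by omega)]; exact h1⟩
  | succ i ih =>
    obtain ⟨p, hp⟩ := h1
    have hne : t ≠ [] := by
      rintro rfl
      simp at hi
    obtain ⟨e, he, he1⟩ := (h.cv l).parent _ hp hne
    have h2 : Im c l t.dropLast e.2.1 := ⟨e.2.2, by rw [← he1]; exact he⟩
    have hlen : t.dropLast.length = j + i := by rw [List.length_dropLast]; omega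
    obtain ⟨ρ', h3⟩ := ih h2 (by omega) hlen
    refine ⟨ρ', ?_⟩
    have e1 : t.dropLast.take j = t.take j := by
      rw [List.dropLast_eq_take, List.take_take]
      congr 1
      omega
    rwa [e1] at h3

/-- Images are initial segments of the stems of longer nodes. -/
theorem im_stem (h : KX T δ V n c O N) {l : ℕ} {t ρ : List ℕ} (h1 : Im c l t ρ)
    {e : List ℕ × List ℕ × List ℕ} (he : e ∈ (c l).2) (ht : t <+: e.1) : ρ <+: e.2.2 := by
  obtain ⟨p, hp⟩ := h1
  exact (((h.cv l).emb _ hp _ he).2 ht).trans ((h.cv l).stem _ he).1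

/-- `π` is the level of the edge `s`. -/
def Lvl (c : ℕ → Cnd3) (s : ℕ) (π : List ℕ) : Prop :=
  ∃ l t ρ, Im c l t ρ ∧ ∃ m < ρ.length, π = ρ.take m ∧ HE (ρ.getD m 0) (src s) (tgt s)

theorem exists_lvl (h : KX T δ V n c O N) {k : ℕ} (hk : N ≤ (tgt (O k)).1) :
    ∃ π, Lvl c (O k) π := by
  obtain ⟨l, e, he, s, hs, h1⟩ := h.ke k hk
  obtain ⟨m, hm, h2⟩ := List.getElem_of_mem hs
  refine ⟨e.2.1.take m, l, e.1, e.2.1, ⟨e.2.2, he⟩, m, hm, rfl, ?_⟩
  rw [List.getD_eq_getElem _ _ hm, h2]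
  exact h1

theorem nd_vstr (h : KX T δ V n c O N) {l : ℕ} {ν : List ℕ} (hν : Nd (c l) ν) :
    VStr (δ (n l)).W o ν (endd o ν) := by
  obtain ⟨e, he, h1⟩ := hν
  exact vstr_pfx ((h.cv l).stem e he).2 h1

/-- The two strings of a level. -/
theorem lvl_nd (h : KX T δ V n c O N) {l : ℕ} {t ρ : List ℕ} (hi : Im c l t ρ) {m : ℕ}
    (hm : m < ρ.length) : Nd (c l) (ρ.take (m + 1)) := by
  obtain ⟨p, hp⟩ := hi
  exact ⟨_, hp, (List.take_prefix _ _).trans ((h.cv l).stem _ hp).1⟩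

theorem lev_of_lvl (hE : ExtrStatement) (h : KX T δ V n c O N) {s : ℕ} {π : List ℕ}
    (hl : Lvl c s π) : ∃ l₀, ∀ l ≥ l₀, Lev (Nd (c l)) (tgt s) π ∧
      ((src s = o ∧ π = []) ∨ Lev (Nd (c l)) (src s) π ∨
        (π ≠ [] ∧ Lev (Nd (c l)) (src s) π.dropLast)) := by
  obtain ⟨l₀, t, ρ, hi, m, hm, rfl, h1⟩ := hl
  refine ⟨l₀, fun l hll => ?_⟩
  have hi' := hi.up h hll
  have h2 := lvl_nd h hi' hm
  obtain ⟨-, h3, -⟩ := hE (δ (n l)).W (Nd (c l)) (h.wf (n l)).inv (h.cv l).ac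
    (fun ν hν => nd_vstr h hν) fun ν ν' hν ⟨e, he, h4⟩ => ⟨e, he, hν.trans h4⟩
  have h7 : (ρ.take (m + 1)).getLast? = some (ρ.getD m 0) := by
    rw [take_snoc hm]
    simp
  have h8 : (ρ.take (m + 1)).dropLast = ρ.take m := by
    rw [take_snoc hm]
    simp
  have h9 := h3 _ _ _ _ h2 h7 h1
  rwa [h8] at h9

theorem lev_uniq (hE : ExtrStatement) (h : KX T δ V n c O N) {l : ℕ} {v : St}
    {π π' : List ℕ} (h1 : Lev (Nd (c l)) v π) (h2 : Lev (Nd (c l)) v π') : π = π' :=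
  (hE (δ (n l)).W (Nd (c l)) (h.wf (n l)).inv (h.cv l).ac
    (fun ν hν => nd_vstr h hν) fun ν ν' hν ⟨e, he, h4⟩ => ⟨e, he, hν.trans h4⟩).1 _ _ _ h1 h2

theorem lev_o (hE : ExtrStatement) (h : KX T δ V n c O N) {l : ℕ} {π : List ℕ} :
    ¬ Lev (Nd (c l)) o π :=
  (hE (δ (n l)).W (Nd (c l)) (h.wf (n l)).inv (h.cv l).ac
    (fun ν hν => nd_vstr h hν) fun ν ν' hν ⟨e, he, h4⟩ => ⟨e, he, hν.trans h4⟩).2.2 π

theorem lvl_uniq (hE : ExtrStatement) (h : KX T δ V n c O N) {s : ℕ} {π π' : List ℕ}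
    (h1 : Lvl c s π) (h2 : Lvl c s π') : π = π' := by
  obtain ⟨l₀, h3⟩ := lev_of_lvl hE h h1
  obtain ⟨l₁, h4⟩ := lev_of_lvl hE h h2
  exact lev_uniq hE h (h3 (max l₀ l₁) (le_max_left _ _)).1 (h4 (max l₀ l₁) (le_max_right _ _)).1

theorem src_succ (h : KX T δ V n c O N) (k : ℕ) : src (O (k + 1)) = tgt (O k) := by
  obtain ⟨m, h1, -⟩ := h.path (k + 2)
  have h2 := ch_mem h1 k (by rw [MP_8c048d_lc.length_pre]; omega)
  have e1 : (pre O (k + 2)).getD (k + 1) 0 = O (k + 1) := by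
    simp [MP_8c048d_lc.pre]
  have e2 : (pre O (k + 2)).getD k 0 = O k := by
    simp [MP_8c048d_lc.pre]
  rw [e1, e2] at h2
  exact h2

theorem climb (hE : ExtrStatement) (h : KX T δ V n c O N) {k : ℕ} {π π' : List ℕ}
    (h1 : Lvl c (O k) π) (h2 : Lvl c (O (k + 1)) π') :
    π' = π ∨ (π' ≠ [] ∧ π'.dropLast = π) := by
  obtain ⟨l₀, h3⟩ := lev_of_lvl hE h h1
  obtain ⟨l₁, h4⟩ := lev_of_lvl hE h h2
  obtain ⟨h5, -⟩ := h3 (max l₀ l₁) (le_max_left _ _)
  obtain ⟨-, h6⟩ := h4 (max l₀ l₁) (le_max_right _ _)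
  rw [src_succ h k] at h6
  rcases h6 with ⟨h6, -⟩ | h6 | ⟨h6, h7⟩
  · rw [h6] at h5
    exact (lev_o hE h h5).elim
  · exact Or.inl (lev_uniq hE h h6 h5)
  · exact Or.inr ⟨h6, lev_uniq hE h h7 h5⟩

/-- The symbols of the path are valid. -/
theorem vs_o (h : KX T δ V n c O N) (k : ℕ) : ∃ m, VS (δ m).W (O k) := by
  obtain ⟨m, -, h1⟩ := h.path (k + 1)
  refine ⟨m, h1 _ ?_⟩
  simp only [MP_8c048d_lc.pre, List.mem_map, List.mem_range]
  exact ⟨k, Nat.lt_succ_self k, rfl⟩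

theorem root_lt (hB : BasicStatement) (h : KX T δ V n c O N) (k : ℕ) : k < (tgt (O k)).1 := by
  have h1 : ∀ k, (src (O k)).1 < (tgt (O k)).1 := by
    intro k
    obtain ⟨m, hm⟩ := vs_o h k
    exact (wfit (h.wf m) _ _ ((hB (δ m).W (wfit (h.wf m))).1 _ hm)).2.2.1
  induction k with
  | zero => exact lt_of_le_of_lt (Nat.zero_le _) (h1 0)
  | succ k ih =>
    have h2 := h1 (k + 1)
    rw [src_succ h k] at h2
    omega

theorem lvl_exists (hB : BasicStatement) (h : KX T δ V n c O N) {k : ℕ} (hk : N ≤ k) :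
    ∃ π, Lvl c (O k) π := exists_lvl h (hk.trans (root_lt hB h k).le)

theorem lvl_pfx (hB : BasicStatement) (hE : ExtrStatement) (h : KX T δ V n c O N) {k k' : ℕ}
    (hk : N ≤ k) (hkk : k ≤ k') {π π' : List ℕ} (h1 : Lvl c (O k) π) (h2 : Lvl c (O k') π') :
    π <+: π' := by
  induction k', hkk using Nat.le_induction generalizing π' with
  | base =>
    rw [lvl_uniq hE h h1 h2]
  | succ k' hkk ih =>
    obtain ⟨π'', h3⟩ := lvl_exists hB h (hk.trans hkk)
    have h4 := ih h3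
    rcases climb hE h h3 h2 with h5 | ⟨-, h5⟩
    · rw [h5]
      exact h4
    · rw [← h5] at h4
      exact h4.trans (List.dropLast_prefix _)

/-- Nodes are not longer than their images. -/
theorem len_le (h : KX T δ V n c O N) {l : ℕ} {t ρ : List ℕ} (h1 : Im c l t ρ) :
    t.length ≤ ρ.length := by
  obtain ⟨i, hi⟩ : ∃ i, t.length = i := ⟨_, rfl⟩
  induction i generalizing t ρ with
  | zero => omega
  | succ i ih =>
    have hne : t ≠ [] := by
      rintro rfl
      simp at hi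
    obtain ⟨p, hp⟩ := h1
    obtain ⟨e, he, he1⟩ := (h.cv l).parent _ hp hne
    have h2 : Im c l t.dropLast e.2.1 := ⟨e.2.2, by rw [← he1]; exact he⟩
    have hlen : t.dropLast.length = i := by rw [List.length_dropLast]; omega
    have h3 := ih h2 hlen
    have h4 : e.2.1 <+: ρ := (im_emb h h2 ⟨p, hp⟩).2 (List.dropLast_prefix _)
    have h5 : e.2.1.length < ρ.length := by
      rcases Nat.lt_or_ge e.2.1.length ρ.length with h5 | h5
      · exact h5
      · have h6 : e.2.1 = ρ := h4.eq_of_length_le h5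
        have h7 : t <+: t.dropLast := (im_emb h ⟨p, hp⟩ h2).1 (by rw [h6])
        have h8 := h7.length_le
        rw [hlen] at h8
        omega
    omega

open Classical in
/-- The image of a node. -/
noncomputable def img (c : ℕ → Cnd3) (t : List ℕ) : List ℕ :=
  if hh : ∃ ρ l, Im c l t ρ then hh.choose else []

theorem img_eq (h : KX T δ V n c O N) {l : ℕ} {t ρ : List ℕ} (h1 : Im c l t ρ) :
    img c t = ρ := by
  have hh : ∃ ρ l, Im c l t ρ := ⟨ρ, l, h1⟩
  unfold img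
  rw [dif_pos hh]
  obtain ⟨l', h2⟩ := hh.choose_spec
  exact im_uniq h (h2.up h (le_max_left l' l)) (h1.up h (le_max_right l' l))

theorem pfx_snoc' {a b : List ℕ} {s : ℕ} (h : a <+: b ++ [s]) : a <+: b ∨ a = b ++ [s] := by
  rcases Nat.lt_or_ge b.length a.length with h1 | h1
  · right
    refine h.eq_of_length_le ?_
    rw [List.length_append]
    exact h1
  · left
    exact List.prefix_of_prefix_length_le h (List.prefix_append _ _) h1

/-- Finitely many children. -/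
theorem fin_ch (h : KX T δ V n c O N) (ν : List ℕ) :
    {s : ℕ | ∃ l, Nd (c l) (ν ++ [s])}.Finite := by
  classical
  let Q : ℕ → Prop := fun j => ∃ l t ρ, Im c l t ρ ∧ ρ <+: ν ∧ t.length = j
  have hQ0 : Q 0 := ⟨0, [], [], im_root h 0, List.nil_prefix, rfl⟩
  have hQb : ∀ j, Q j → j ≤ ν.length := by
    rintro j ⟨l, t, ρ, h1, h2, rfl⟩
    exact (len_le h h1).trans h2.length_le
  have hQs := Nat.findGreatest_spec (P := Q) (Nat.zero_le ν.length) hQ0
  have hQm : ∀ j, Q j → j ≤ Nat.findGreatest Q ν.length := fun j hj =>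
    Nat.le_findGreatest (hQb j hj) hj
  obtain ⟨l₁, t, ρ, h1, h2, h3⟩ := hQs
  have hS0 : {s : ℕ | ∃ l, ∃ e ∈ (c l).2, e.1 = t ∧ ν ++ [s] <+: e.2.2}.Finite := by
    refine Set.Subsingleton.finite ?_
    rintro s ⟨l, e, he, rfl, h4⟩ s' ⟨l', e', he', h5, h6⟩
    obtain ⟨p, h7, h8⟩ := old h (le_max_left l l') _ he
    obtain ⟨p', h9, h10⟩ := old h (le_max_right l l') _ he'
    have h11 := (h.cv (max l l')).uniq _ h8 _ h10 h5.symm
    have h12 : p = p' := congrArg (fun e => e.2.2) h11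
    subst h12
    have h13 := List.prefix_of_prefix_length_le (h4.trans h7) (h6.trans h9) (by simp)
    have h14 := h13.eq_of_length (by simp)
    simpa using h14
  refine ((((h.fin t).image fun k => (img c (t ++ [k])).getD ν.length 0)).union hS0).subset ?_
  rintro s ⟨l, e, he, h4⟩
  obtain ⟨p', h5, h6⟩ := old h (le_max_left l l₁) _ he
  have h7 : Im c (max l l₁) t ρ := h1.up h (le_max_right l l₁)
  obtain ⟨pt, hpt⟩ := h7
  have h8 : t <+: e.1 := (h.cv (max l l₁)).stemEmb _ h6 _ hpt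
    ((h2.trans (List.prefix_append ν [s])).trans (h4.trans h5))
  by_cases het : e.1 = t
  · exact Or.inr ⟨l, e, he, het, h4⟩
  · left
    have hlen : t.length < e.1.length := by
      rcases Nat.lt_or_ge t.length e.1.length with h9 | h9
      · exact h9
      · exact (het (h8.eq_of_length_le h9).symm).elim
    have ht1 : e.1.take (t.length + 1) = t ++ [e.1.getD t.length 0] := by
      rw [take_snoc hlen, ← List.prefix_iff_eq_take.1 h8]
    obtain ⟨ρ₁, h9⟩ := im_take h (l := max l l₁) (t := e.1) ⟨_, h6⟩ (t.length + 1) hlen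
    rw [ht1] at h9
    have h10 : ρ₁ <+: p' := im_stem h h9 h6 (by rw [← ht1]; exact List.take_prefix _ _)
    have h11 : ν ++ [s] <+: ρ₁ := by
      rcases cmp_pfx h10 (h4.trans h5) with h12 | h12
      · rcases pfx_snoc' h12 with h13 | h13
        · have h14 := hQm (t.length + 1) ⟨_, _, _, h9, h13, by simp⟩
          rw [← h3] at h14
          omega
        · rw [h13]
      · exact h12
    refine ⟨e.1.getD t.length 0, im_mem h h9, ?_⟩
    show (img c (t ++ [e.1.getD t.length 0])).getD ν.length 0 = s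
    rw [img_eq h h9]
    obtain ⟨w, rfl⟩ := h11
    simp

/-- The levels are unbounded. -/
theorem lvl_unb (hB : BasicStatement) (hE : ExtrStatement) (h : KX T δ V n c O N) (M : ℕ) :
    ∃ k π, N ≤ k ∧ Lvl c (O k) π ∧ M ≤ π.length := by
  classical
  by_contra hcon
  have hb : ∀ k π, N ≤ k → Lvl c (O k) π → π.length ≤ M := by
    intro k π hk hl
    by_contra h1
    exact hcon ⟨k, π, hk, hl, by omega⟩
  let Q : ℕ → Prop := fun j => ∃ k π, N ≤ k ∧ Lvl c (O k) π ∧ π.length = j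
  obtain ⟨π₀, h0⟩ := lvl_exists hB h (le_refl N)
  have hQ0 : Q π₀.length := ⟨N, π₀, le_refl _, h0, rfl⟩
  have hQs := Nat.findGreatest_spec (P := Q) (hb N π₀ le_rfl h0) hQ0
  have hQm : ∀ j, Q j → j ≤ Nat.findGreatest Q M := by
    intro j hj
    refine Nat.le_findGreatest ?_ hj
    obtain ⟨k, π, h1, h2, rfl⟩ := hj
    exact hb k π h1 h2
  obtain ⟨k₁, ν, h1, h2, h3⟩ := hQs
  have hconst : ∀ k, k₁ ≤ k → Lvl c (O k) ν := by
    intro k hk
    obtain ⟨π, h4⟩ := lvl_exists hB h (h1.trans hk)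
    have h5 := lvl_pfx hB hE h h1 hk h2 h4
    have h6 := hQm π.length ⟨k, π, h1.trans hk, h4, rfl⟩
    rw [h5.eq_of_length_le (by omega)]
    exact h4
  obtain ⟨B, hBd⟩ := ((fin_ch h ν).image fun s => (tgt s).1).bddAbove
  obtain ⟨l, t, ρ, h4, m, hm, h5, h6⟩ := hconst (max k₁ B) (le_max_left _ _)
  have h7 := lvl_nd h h4 hm
  have h8 : VS (δ (n l)).W (ρ.getD m 0) := by
    refine (nd_vstr h h7).2 _ ?_
    rw [take_snoc hm]
    simp
  have h9 := ((hB (δ (n l)).W (wfit (h.wf (n l)))).2.2.2.1 _ h8 _ _ h6).2.2.1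
  rw [take_snoc hm, ← h5] at h7
  have h10 : (tgt (ρ.getD m 0)).1 ≤ B := hBd ⟨_, ⟨l, h7⟩, rfl⟩
  have h11 := root_lt hB h (max k₁ B)
  have h12 := le_max_right k₁ B
  omega

/-- The nodes on the path. -/
theorem nodes (hB : BasicStatement) (hE : ExtrStatement) (h : KX T δ V n c O N) (j : ℕ) :
    ∃ l t ρ k π, N ≤ k ∧ Im c l t ρ ∧ t.length = j ∧ Lvl c (O k) π ∧ ρ <+: π := by
  induction j with
  | zero =>
    obtain ⟨π, h1⟩ := lvl_exists hB h (le_refl N)
    exact ⟨0, [], [], N, π, le_rfl, im_root h 0, rfl, h1, List.nil_prefix⟩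
  | succ j ih =>
    obtain ⟨l, t, ρ, k, π, h1, h2, h3, h4, h5⟩ := ih
    obtain ⟨M, hM⟩ := ((h.fin t).image fun k => (img c (t ++ [k])).length).bddAbove
    obtain ⟨k₂, π₂, h6, h7, h8⟩ := lvl_unb hB hE h (max M ρ.length + 1)
    obtain ⟨π₃, h9⟩ := lvl_exists hB h (h1.trans (le_max_left k k₂))
    have h10 := lvl_pfx hB hE h h1 (le_max_left k k₂) h4 h9
    have h11 := lvl_pfx hB hE h h6 (le_max_right k k₂) h7 h9
    have h12 : max M ρ.length + 1 ≤ π₃.length := h8.trans h11.length_le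
    have h13 : ρ <+: π₃ := h5.trans h10
    obtain ⟨l', t', ρ', h14, m, hm, h15, h16⟩ := id h9
    have h17 : π₃ <+: ρ' := by rw [h15]; exact List.take_prefix _ _
    have h18 : Im c (max l l') t ρ := h2.up h (le_max_left _ _)
    have h19 : Im c (max l l') t' ρ' := h14.up h (le_max_right _ _)
    have h20 : t <+: t' := (im_emb h h18 h19).1 (h13.trans h17)
    have hmx := le_max_right M ρ.length
    have hmx' := le_max_left M ρ.length
    have hlen : t.length < t'.length := by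
      rcases Nat.lt_or_ge t.length t'.length with h21 | h21
      · exact h21
      · have h22 := h20.eq_of_length_le h21
        subst h22
        rw [← im_uniq h h18 h19] at h17
        have h23 := h17.length_le
        omega
    have ht1 : t'.take (t.length + 1) = t ++ [t'.getD t.length 0] := by
      rw [take_snoc hlen, ← List.prefix_iff_eq_take.1 h20]
    obtain ⟨ρ₁, h21⟩ := im_take h h19 (t.length + 1) hlen
    rw [ht1] at h21
    have h22 : ρ₁ <+: ρ' := (im_emb h h21 h19).2 (by rw [← ht1]; exact List.take_prefix _ _)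
    have h23 : ρ₁.length ≤ M := by
      refine hM ⟨t'.getD t.length 0, im_mem h h21, ?_⟩
      show (img c _).length = _
      rw [img_eq h h21]
    refine ⟨_, _, ρ₁, max k k₂, π₃, h1.trans (le_max_left _ _), h21, by simp [h3], h9, ?_⟩
    exact List.prefix_of_prefix_length_le h22 h17 (by omega)

/-- Nodes on the path are comparable. -/
theorem nodes_cmp (hB : BasicStatement) (hE : ExtrStatement) (h : KX T δ V n c O N)
    {l l' k k' : ℕ} {t ρ π t' ρ' π' : List ℕ} (hk : N ≤ k) (h1 : Im c l t ρ)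
    (h2 : Lvl c (O k) π) (h3 : ρ <+: π) (hk' : N ≤ k') (h1' : Im c l' t' ρ')
    (h2' : Lvl c (O k') π') (h3' : ρ' <+: π') (hlen : t.length ≤ t'.length) : t <+: t' := by
  have h4 : ρ <+: ρ' ∨ ρ' <+: ρ := by
    rcases le_total k k' with hkk | hkk
    · exact cmp_pfx (h3.trans (lvl_pfx hB hE h hk hkk h2 h2')) h3'
    · exact cmp_pfx h3 (h3'.trans (lvl_pfx hB hE h hk' hkk h2' h2))
  have h5 := h1.up h (le_max_left l l')
  have h6 := h1'.up h (le_max_right l l')
  rcases h4 with h4 | h4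
  · exact (im_emb h h5 h6).1 h4
  · have h7 := (im_emb h h6 h5).1 h4
    rw [h7.eq_of_length_le hlen]

/-! ## The search -/

/-- `(t, ρ)` is a true fact; `v` is the value of `V` at the place `q`. -/
def TF (T : List ℕ → Prop) (L0 : List (List ℕ × List ℕ)) (p0 : ℕ) (t ρ : List ℕ) (q v : ℕ) :
    Prop := (t, ρ) ∈ L0 ∨ (p0 ≤ q ∧ v = Encodable.encode (t, ρ) ∧ T t)

/-- `(j, t, ρ, q, t', ρ', q', k, m)`. -/
abbrev QA : Type := ℕ × List ℕ × List ℕ × ℕ × List ℕ × List ℕ × ℕ × ℕ × ℕ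

/-- The certificate. -/
def Cert (T : List ℕ → Prop) (L0 : List (List ℕ × List ℕ)) (p0 N : ℕ) (a : QA) (v v' s : ℕ) :
    Prop :=
  a.2.1.length = a.1 ∧ TF T L0 p0 a.2.1 a.2.2.1 a.2.2.2.1 v ∧
    TF T L0 p0 a.2.2.2.2.1 a.2.2.2.2.2.1 a.2.2.2.2.2.2.1 v' ∧ N ≤ a.2.2.2.2.2.2.2.1 ∧
    a.2.2.2.2.2.2.2.2 < a.2.2.2.2.2.1.length ∧ a.2.2.1.length ≤ a.2.2.2.2.2.2.2.2 ∧
    a.2.2.1 <+: a.2.2.2.2.2.1 ∧ HE (a.2.2.2.2.2.1.getD a.2.2.2.2.2.2.2.2 0) (src s) (tgt s)

/-- The relation of the search. -/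
def R (T : List ℕ → Prop) (L0 : List (List ℕ × List ℕ)) (p0 N : ℕ) (a a' : QA) (F : ℕ → ℕ) :
    Prop :=
  a'.1 = a.1 + 1 ∧ Cert T L0 p0 N a' (F (2 * a'.2.2.2.1)) (F (2 * a'.2.2.2.2.2.2.1))
    (F (2 * a'.2.2.2.2.2.2.2.1 + 1))

theorem tf_cop {T : List ℕ → Prop} (hT : ComputablePred T) (L0 : List (List ℕ × List ℕ))
    (p0 : ℕ) {α : Type} [Primcodable α] {t ρ : α → List ℕ} {q v : α → ℕ} (ht : Computable t)
    (hρ : Computable ρ) (hq : Computable q) (hv : Computable v) :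
    Cop (fun a (_ : ℕ → ℕ) => TF T L0 p0 (t a) (ρ a) (q a) (v a)) := by
  have h1 : Cop (fun a (_ : ℕ → ℕ) => (t a, ρ a) ∈ L0) :=
    MP_d48993_lc.Cop.mem (f := fun a => (t a, ρ a)) (l := fun _ => L0) (ht.pair hρ) (Computable.const L0)
  have h2 : Cop (fun a (_ : ℕ → ℕ) => p0 ≤ q a) :=
    (MP_8c048d_lc.Cop.of_computable Step2c.lePair).comp (f := fun a => (p0, q a))
      ((Computable.const p0).pair hq)
  have h3 : Cop (fun a (_ : ℕ → ℕ) => v a = Encodable.encode (t a, ρ a)) :=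
    MP_d48993_lc.Cop.eq hv (Computable.encode.comp (ht.pair hρ))
  have h4 : Cop (fun a (_ : ℕ → ℕ) => T (t a)) := (MP_8c048d_lc.Cop.of_computable hT).comp ht
  exact h1.or (h2.and (h3.and h4))

theorem r_cop (hc : CodesStatement) (hD : DecvStatement) {T : List ℕ → Prop}
    (hT : ComputablePred T) (L0 : List (List ℕ × List ℕ)) (p0 N : ℕ) :
    Cop (fun (p : QA × QA) F => R T L0 p0 N p.1 p.2 F) := by
  obtain ⟨-, -, -, -, csrc, ctgt, -⟩ := hc
  -- the coordinates
  have c : Computable (fun p : QA × QA => p.2) := Computable.snd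
  have r1 : Computable (fun p : QA × QA => p.2.2) := Computable.snd.comp c
  have r2 : Computable (fun p : QA × QA => p.2.2.2) := Computable.snd.comp r1
  have r3 : Computable (fun p : QA × QA => p.2.2.2.2) := Computable.snd.comp r2
  have r4 : Computable (fun p : QA × QA => p.2.2.2.2.2) := Computable.snd.comp r3
  have r5 : Computable (fun p : QA × QA => p.2.2.2.2.2.2) := Computable.snd.comp r4
  have r6 : Computable (fun p : QA × QA => p.2.2.2.2.2.2.2) := Computable.snd.comp r5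
  have r7 : Computable (fun p : QA × QA => p.2.2.2.2.2.2.2.2) := Computable.snd.comp r6
  have dbl : Computable (fun x : ℕ => 2 * x) :=
    (Primrec.nat_mul.comp (Primrec.const 2) Primrec.id).to_comp
  have dbl1 : Computable (fun x : ℕ => 2 * x + 1) :=
    (Primrec.succ.comp (Primrec.nat_mul.comp (Primrec.const 2) Primrec.id)).to_comp
  have hφ : RecF (fun (p : QA × QA) (F : ℕ → ℕ) => (p, F (2 * p.2.2.2.2.1),
      F (2 * p.2.2.2.2.2.2.2.1), F (2 * p.2.2.2.2.2.2.2.2.1 + 1))) := by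
    refine RecF.pair (RecF.of_computable Computable.id) (RecF.pair ?_ (RecF.pair ?_ ?_))
    · exact RecF.at (f := fun p : QA × QA => 2 * p.2.2.2.2.1) (dbl.comp (Computable.fst.comp r3))
    · exact RecF.at (f := fun p : QA × QA => 2 * p.2.2.2.2.2.2.2.1)
        (dbl.comp (Computable.fst.comp r6))
    · exact RecF.at (f := fun p : QA × QA => 2 * p.2.2.2.2.2.2.2.2.1 + 1)
        (dbl1.comp (Computable.fst.comp r7))
  -- the matrix
  let B : Type := (QA × QA) × ℕ × ℕ × ℕ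
  have b : Computable (fun x : B => x.1) := Computable.fst
  have b1 : Computable (fun x : B => x.2.1) := Computable.fst.comp Computable.snd
  have b2 : Computable (fun x : B => x.2.2.1) :=
    Computable.fst.comp (Computable.snd.comp Computable.snd)
  have b3 : Computable (fun x : B => x.2.2.2) :=
    Computable.snd.comp (Computable.snd.comp Computable.snd)
  have m1 : Cop (fun (x : B) (_ : ℕ → ℕ) => x.1.2.1 = x.1.1.1 + 1) :=
    MP_d48993_lc.Cop.eq ((Computable.fst.comp c).comp b)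
      (Computable.succ.comp ((Computable.fst.comp Computable.fst).comp b))
  have m2 : Cop (fun (x : B) (_ : ℕ → ℕ) => x.1.2.2.1.length = x.1.2.1) :=
    MP_d48993_lc.Cop.eq ((Computable.list_length.comp (Computable.fst.comp r1)).comp b)
      ((Computable.fst.comp c).comp b)
  have m3 := tf_cop hT L0 p0 ((Computable.fst.comp r1).comp b) ((Computable.fst.comp r2).comp b)
    ((Computable.fst.comp r3).comp b) b1
  have m4 := tf_cop hT L0 p0 ((Computable.fst.comp r4).comp b) ((Computable.fst.comp r5).comp b)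
    ((Computable.fst.comp r6).comp b) b2
  have m5 : Cop (fun (x : B) (_ : ℕ → ℕ) => N ≤ x.1.2.2.2.2.2.2.2.2.1) :=
    (MP_8c048d_lc.Cop.of_computable Step2c.lePair).comp
      (f := fun x : B => (N, x.1.2.2.2.2.2.2.2.2.1))
      ((Computable.const N).pair ((Computable.fst.comp r7).comp b))
  have m6 : Cop (fun (x : B) (_ : ℕ → ℕ) =>
      x.1.2.2.2.2.2.2.2.2.2 < x.1.2.2.2.2.2.2.1.length) :=
    MP_d48993_lc.Cop.lt ((Computable.snd.comp r7).comp b)
      ((Computable.list_length.comp (Computable.fst.comp r5)).comp b)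
  have m7 : Cop (fun (x : B) (_ : ℕ → ℕ) =>
      x.1.2.2.2.1.length ≤ x.1.2.2.2.2.2.2.2.2.2) :=
    (MP_8c048d_lc.Cop.of_computable Step2c.lePair).comp
      (f := fun x : B => (x.1.2.2.2.1.length, x.1.2.2.2.2.2.2.2.2.2))
      (((Computable.list_length.comp (Computable.fst.comp r2)).comp b).pair
        ((Computable.snd.comp r7).comp b))
  have m8 : Cop (fun (x : B) (_ : ℕ → ℕ) => x.1.2.2.2.1 <+: x.1.2.2.2.2.2.2.1) :=
    MP_d48993_lc.Cop.isPre ((Computable.fst.comp r2).comp b) ((Computable.fst.comp r5).comp b)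
  have m9 : Cop (fun (x : B) (_ : ℕ → ℕ) => HE (x.1.2.2.2.2.2.2.1.getD x.1.2.2.2.2.2.2.2.2.2 0)
      (src x.2.2.2) (tgt x.2.2.2)) := by
    refine (MP_8c048d_lc.Cop.of_computable hD.2.1).comp (f := fun x : B =>
      (x.1.2.2.2.2.2.2.1.getD x.1.2.2.2.2.2.2.2.2.2 0, src x.2.2.2, tgt x.2.2.2)) ?_
    refine Computable.pair ?_ ((csrc.comp b3).pair (ctgt.comp b3))
    exact ((Primrec.list_getD (α := ℕ) 0).to_comp).comp ((Computable.fst.comp r5).comp b)
      ((Computable.snd.comp r7).comp b)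
  have hp : ComputablePred (fun x : B => x.1.2.1 = x.1.1.1 + 1 ∧
      Cert T L0 p0 N x.1.2 x.2.1 x.2.2.1 x.2.2.2) := by
    refine MP_d48993_lc.Cop.toCP ?_
    exact (m1.and (m2.and (m3.and (m4.and (m5.and (m6.and (m7.and (m8.and m9)))))))).congr
      fun _ _ => Iff.rfl
  exact (MP_8c048d_lc.Cop.of_recF hφ hp).congr fun p F => Iff.rfl

/-- True facts are images. -/
theorem im_of_tf (h : KX T δ V n c O N) {t ρ : List ℕ} {q : ℕ}
    (hf : TF T ((c 0).2.map fun e => (e.1, e.2.1)) (c 0).1.length t ρ q (V q)) :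
    ∃ l, Im c l t ρ := by
  rcases hf with hf | ⟨h1, h2, h3⟩
  · obtain ⟨e, he, h4⟩ := List.mem_map.1 hf
    obtain ⟨rfl, rfl⟩ := Prod.mk.inj h4
    exact ⟨0, e.2.2, he⟩
  · obtain ⟨l, hl⟩ := h.unb (q + 1)
    have h4 : ∃ l, q < (c l).1.length := ⟨l, hl⟩
    classical
    have h5 := Nat.find_spec h4
    have h6 : ∀ l', l' < Nat.find h4 → (c l').1.length ≤ q := fun l' hl' =>
      Nat.le_of_not_lt (Nat.find_min h4 hl')
    obtain ⟨l₁, hl₁⟩ : ∃ l₁, Nat.find h4 = l₁ + 1 := by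
      rcases Nat.eq_zero_or_pos (Nat.find h4) with h7 | h7
      · rw [h7] at h5
        omega
      · exact ⟨Nat.find h4 - 1, by omega⟩
    rw [hl₁] at h5
    have h7 := h6 l₁ (by omega)
    obtain ⟨k, hk⟩ := h.px (l₁ + 1)
    have h8 : V q ∈ (c (l₁ + 1)).1.drop (c l₁).1.length := by
      rw [hk] at h5 ⊢
      rw [MP_8c048d_lc.length_pre] at h5
      rw [List.mem_iff_getElem?]
      refine ⟨q - (c l₁).1.length, ?_⟩
      rw [List.getElem?_drop, Nat.add_sub_cancel' h7]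
      simp [MP_8c048d_lc.pre, h5]
    obtain ⟨p, hp⟩ := (h.le l₁).fact _ h8 t ρ h2 h3
    exact ⟨l₁ + 1, p, hp⟩

/-- Images are true facts. -/
theorem tf_of_im (h : KX T δ V n c O N) {l : ℕ} {t ρ : List ℕ} (hi : Im c l t ρ) :
    ∃ q, TF T ((c 0).2.map fun e => (e.1, e.2.1)) (c 0).1.length t ρ q (V q) := by
  obtain ⟨p, hp⟩ := hi
  rcases h.disp l _ hp with ⟨p', h1⟩ | ⟨q, h1, h2⟩
  · exact ⟨0, Or.inl (List.mem_map.2 ⟨_, h1, rfl⟩)⟩
  · exact ⟨q, Or.inr ⟨h1, h2, im_mem h ⟨p, hp⟩⟩⟩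

theorem join_even (V O : ℕ → ℕ) (q : ℕ) : join V O (2 * q) = V q := by
  unfold MP_8c048d_lc.join
  rw [if_pos (by omega)]
  congr 1
  omega

theorem join_odd (V O : ℕ → ℕ) (q : ℕ) : join V O (2 * q + 1) = O q := by
  unfold MP_8c048d_lc.join
  rw [if_neg (by omega)]
  congr 1
  omega

/-- Module KEXT. -/
theorem kext (hc : CodesStatement) (hB : BasicStatement) (hE : ExtrStatement)
    (hD : DecvStatement) (hS : SearchStatement) (hT : ComputablePred T)
    (h : KX T δ V n c O N) : HasPath (join V O) T := by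
  obtain ⟨A, hA0, hA, hout⟩ := hS QA
    (R T ((c 0).2.map fun e => (e.1, e.2.1)) (c 0).1.length N) (r_cop hc hD hT _ _ _)
    (join V O) (fun _ => True) (0, [], [], 0, [], [], 0, 0, 0) trivial
    (by
      rintro a -
      obtain ⟨l, t, ρ, k, π, h1, h2, h3, ⟨l', t', ρ', h4, m, hm, rfl, h5⟩, h6⟩ :=
        nodes hB hE h (a.1 + 1)
      obtain ⟨q, hq⟩ := tf_of_im h h2
      obtain ⟨q', hq'⟩ := tf_of_im h h4
      refine ⟨(a.1 + 1, t, ρ, q, t', ρ', q', k, m), rfl, h3, ?_, ?_, h1, hm, ?_, ?_, ?_⟩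
      · show TF _ _ _ t ρ q (join V O (2 * q))
        rw [join_even]
        exact hq
      · show TF _ _ _ t' ρ' q' (join V O (2 * q'))
        rw [join_even]
        exact hq'
      · show ρ.length ≤ m
        have h7 := h6.length_le
        rw [List.length_take] at h7
        omega
      · exact h6.trans (List.take_prefix _ _)
      · show HE (ρ'.getD m 0) (src (join V O (2 * k + 1))) (tgt (join V O (2 * k + 1)))
        rw [join_odd]
        exact h5)
    (fun _ _ _ _ => trivial)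
  -- what the certificates say
  have hj : ∀ j, (A j).1 = j := by
    intro j
    induction j with
    | zero => rw [hA0]
    | succ j ih => rw [(hA j).1, ih]
  have key : ∀ j, ∃ l ρ k π, N ≤ k ∧ Im c l (A (j + 1)).2.1 ρ ∧ (A (j + 1)).2.1.length = j + 1 ∧
      Lvl c (O k) π ∧ ρ <+: π := by
    intro j
    obtain ⟨-, h1, h2, h3, h4, h5, h6, h7, h8⟩ := hA j
    rw [join_even] at h2 h3
    rw [join_odd] at h8
    obtain ⟨l, h9⟩ := im_of_tf h h2
    obtain ⟨l', h10⟩ := im_of_tf h h3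
    refine ⟨l, _, _, _, h4, h9, by rw [h1, hj], ⟨l', _, _, h10, _, h5, rfl, h8⟩, ?_⟩
    exact List.prefix_of_prefix_length_le h7 (List.take_prefix _ _)
      (by rw [List.length_take]; omega)
  have cmp : ∀ i j, i ≤ j → (A (i + 1)).2.1 <+: (A (j + 1)).2.1 := by
    intro i j hij
    obtain ⟨l, ρ, k, π, h1, h2, h3, h4, h5⟩ := key i
    obtain ⟨l', ρ', k', π', h1', h2', h3', h4', h5'⟩ := key j
    exact nodes_cmp hB hE h h1 h2 h4 h5 h1' h2' h4' h5' (by omega)
  have hred := hout (fun p _ => p.2.2.1.getD p.1 0)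
    (RecF.of_computable (((Primrec.list_getD (α := ℕ) 0).to_comp).comp
      (Computable.fst.comp (Computable.snd.comp Computable.snd)) Computable.fst))
  refine ⟨_, hred, fun k => ?_⟩
  cases k with
  | zero => exact im_mem h (im_root h 0)
  | succ k =>
    have e : pre (fun j => (A (j + 1)).2.1.getD j 0) (k + 1) = (A (k + 1)).2.1 := by
      obtain ⟨-, -, -, -, -, -, h3, -⟩ := key k
      refine List.ext_getElem? fun i => ?_
      rcases Nat.lt_or_ge i (k + 1) with hi | hi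
      · have h4 := cmp i k (by omega)
        obtain ⟨w, hw⟩ := h4
        obtain ⟨-, -, -, -, -, -, h5, -⟩ := key i
        simp only [MP_8c048d_lc.pre, List.getElem?_map, List.getElem?_range hi, Option.map_some]
        rw [← hw, List.getElem?_append_left (by omega), List.getD_eq_getElem?_getD,
          List.getElem?_eq_getElem (by omega)]
        rfl
      · rw [List.getElem?_eq_none (by rw [MP_8c048d_lc.length_pre]; omega),
          List.getElem?_eq_none (by omega)]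
    show T (pre (fun j => (A (j + 1)).2.1.getD j 0) (k + 1))
    rw [e]
    obtain ⟨l, ρ, k', π, h1, h2, -⟩ := key k
    exact im_mem h h2

/-- Finitely many binary trees side by side are finitely branching. -/
theorem te_fin {Tr : ℕ → List ℕ → Prop} {E : List ℕ}
    (hb : ∀ e ∈ E, ∀ σ, Tr e σ → ∀ x ∈ σ, x < 2) (s : List ℕ) :
    {k : ℕ | TE Tr E (s ++ [k])}.Finite := by
  cases s with
  | nil =>
    refine (E.toFinset.finite_toSet).subset ?_
    rintro k ⟨h1, -⟩
    simpa using h1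
  | cons e s =>
    refine (Set.finite_lt_nat 2).subset ?_
    rintro k ⟨h1, h2⟩
    exact hb e h1 _ h2 k (by simp)

/-- Module KEXT, without hypotheses. -/
theorem kext_all (hT : ComputablePred T) (h : KX T δ V n c O N) : HasPath (join V O) T :=
  kext codes (basic codes) (extr (basic codes)) (decv codes) (search red1 redMu) hT h

/-- Module KEXT for the trees `Tr e`, `e ∈ E`. -/
theorem kext_te {Tr : ℕ → List ℕ → Prop} {E : List ℕ}
    (hTr : ComputablePred (fun p : ℕ × List ℕ => Tr p.1 p.2))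
    (h : KX (TE Tr E) δ V n c O N) : ∃ e ∈ E, HasPath (join V O) (Tr e) :=
  te_path (kext_all (te_comp hTr E) h)

end Kext

end Pool.Agent.Lib.MP_d48993_lc.Node
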