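import Pool.Agent.Lib.MP_d48993_lc.AE.Real.Obj
import Pool.Agent.Lib.MP_d48993_lc.AE.Bound.All

/-!
# Glue: the interface OBJ gives the lattice statement LT3
-/

set_option autoImplicit false

namespace Pool.Agent.Lib.MP_d48993_lc.Real

open Pool.Agent.Lib.MP_d48993_lc.Bound

namespace Glue

variable {P : Type} [PartialOrder P] {U : P → Set P} {B : Set (ℕ → ℕ)} {A : P → Set (ℕ → ℕ)}
  {M : Set P → Set (ℕ → ℕ)} {O V : P → ℕ → ℕ} {Y : Set P → P → ℕ → ℕ}
  {X : Set P → Set (Set P × P) → ℕ → ℕ} {la : Set P → P}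

theorem isC_up {y : Set (ℕ → ℕ)} (h : IsC B y) {X Z : ℕ → ℕ} (hX : X ∈ y) (hZ : Red X Z) :
    Z ∈ y := by
  obtain ⟨S, -, rfl⟩ := h
  rcases hX with ⟨f, h1, h2⟩ | ⟨f, h1, h2⟩
  · exact Or.inl ⟨f, h1, h2.trans hZ⟩
  · exact Or.inr ⟨f, h1, h2.trans hZ⟩

theorem isC_B {y : Set (ℕ → ℕ)} (h : IsC B y) {Z : ℕ → ℕ} (hZ : Z ∈ Up B) : Z ∈ y := by
  obtain ⟨S, -, rfl⟩ := h
  exact Or.inr hZ

theorem Le.trans {X Y Z : ℕ → ℕ} (h : Le B X Y) (h' : Le B Y Z) : Le B X Z :=
  fun y hy hX => h' y hy (h y hy hX)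

theorem le_of_red {X Z : ℕ → ℕ} (h : Red X Z) : Le B X Z := fun _ hy hX => isC_up hy hX h

theorem le_of_up {X Z : ℕ → ℕ} (h : Z ∈ Up B) : Le B X Z := fun _ hy _ => isC_B hy h

theorem knows_lt (hU : UCF P U) {s t : P} (h : s ∉ U t) : s < t := by
  by_contra h1
  exact h (hU.off t s h1)

theorem lb_down {R : Set P} {s t : P} (h : t ∈ lowerBounds R) (hst : s ≤ t) :
    s ∈ lowerBounds R := fun _ hr => hst.trans (h hr)

theorem exists_max [Finite P] {R : Set P} {c : P} (hc : c ∈ lowerBounds R) :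
    ∃ m, c ≤ m ∧ Maximal (· ∈ lowerBounds R) m := by
  obtain ⟨m, h1, h2⟩ := (Set.toFinite (lowerBounds R)).exists_le_maximal hc
  exact ⟨m, h1, h2⟩

theorem nonfull [Finite P] (c : P) (R : Set P) : ¬ Full {j | Kn c j} R := by
  rintro ⟨h1, h2⟩
  obtain ⟨⟨G, ⟨g, hg⟩, hR⟩, -⟩ := h1
  have h3 : g ∈ lowerBounds R := by
    rw [hR]
    exact fun r hr => hr hg
  obtain ⟨m0, -, h4⟩ := exists_max h3
  have h5 : c ∈ lowerBounds R := (h2 m0 h4).2.1
  obtain ⟨m, h6, h7⟩ := exists_max h5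
  exact (h2 m h7).2.2 h6

/-- The pattern of `c`. -/
theorem pat_self [Finite P] (hU : UCF P U) (c : P) : Pat U c (Set.Ici c) {j | Kn c j} where
  up := fun s hs => hs
  cl := fun s hs s' h => le_of_lt (lt_of_le_of_lt hs (knows_lt hU h))
  sh := fun j hj => ⟨hj.1, hj.2.1⟩
  np := by
    intro j hj h
    obtain ⟨_, t, ht, hJ, -⟩ := h
    exact ht (lb_down hj.2.1 (hJ c Set.self_mem_Ici))
  nf := nonfull c
  kn := fun j h1 h2 => (h2 h1).elim

section Real

variable (h : Obj B U A M O V Y X la)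

include h

/-- Formal payments are real payments, for the reals `X J H`. -/
theorem pm_x {J : Set P} {H H' : Set (Set P × P)} (hH : H ⊆ H') {R : Set P} (hp : PM J H R) :
    Good R → X J H' ∈ M R := by
  induction hp with
  | mk R t ht hJ _ ih =>
    intro hR
    rw [h.meq R hR]
    refine Or.inl ⟨t, ht, fun s hs => ?_, fun R' m hR' hK => ?_⟩
    · exact isC_up (h.clsA s) (h.oA s) (h.xo J H' s fun h1 => hs (hJ s h1))
    · by_cases h1 : (R', m) ∈ H
      · exact Or.inl ⟨_, rfl, h.xy J H' R' m hK.1 (hH h1)⟩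
      · exact Or.inr (ih R' m hR' hK h1 hK.1.1)

/-- Formal payments are real payments, for a real `W`. -/
theorem pm_w {W : ℕ → ℕ} {J : Set P} {H : Set (Set P × P)} (hJ' : ∀ s, s ∉ J → W ∈ A s)
    (hH : ∀ R m, (R, m) ∈ H → Red (Y R m) W) {R : Set P} (hp : PM J H R) :
    Good R → W ∈ M R := by
  induction hp with
  | mk R t ht hJ _ ih =>
    intro hR
    rw [h.meq R hR]
    refine Or.inl ⟨t, ht, fun s hs => hJ' s fun h1 => hs (hJ s h1), fun R' m hR' hK => ?_⟩
    by_cases h1 : (R', m) ∈ H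
    · exact Or.inl ⟨_, rfl, hH R' m h1⟩
    · exact Or.inr (ih R' m hR' hK h1 hK.1.1)

/-- Real payments are formal payments. -/
theorem w_pm [Finite P] {W : ℕ → ℕ} (hW : W ∉ Up B) {b : P} {J : Set P} {H : Set (Set P × P)}
    (hJ : ∀ s ∈ J, W ∉ A s)
    (hH : ∀ R m, IsSh (R, m) → b ∈ lowerBounds R → Red (Y R m) W → W ∉ M R → (R, m) ∈ H) :
    ∀ R : Set P, Good R → b ∈ lowerBounds R → W ∈ M R → PM J H R := by
  have : Finite (Set P) := inferInstance
  intro R
  induction R using WellFoundedLT.induction with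
  | ind R ih =>
    intro hR hb hM
    rw [h.meq R hR] at hM
    rcases hM with ⟨t, ht, h1, h2⟩ | hM
    · refine PM.mk R t ht (fun s hs => ?_) fun R' m hR' hK hn => ?_
      · by_contra h3
        exact hJ s hs (h1 s h3)
      · have hb' : b ∈ lowerBounds R' := fun r hr => hb (hR'.1 hr)
        refine ih R' hR' hK.1.1 hb' ?_
        rcases h2 R' m hR' hK with ⟨f, h3, h4⟩ | h3
        · by_contra h5
          obtain rfl : f = Y R' m := h3
          exact hn (hH R' m hK.1 hb' h4 h5)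
        · exact h3
    · exact (hW hM).elim

/-- Removal of a point. -/
theorem rem' {s : P} {J : Set P} {H : Set (Set P × P)} (hs : s ∉ J) (h1 : Cl U J)
    (h2 : Cl U (insert s J)) (hH : ∀ j ∈ H, IsSh j) : Le B (X (insert s J) H) (X J H) := by
  by_cases hF : ∃ R, Full H R
  · obtain ⟨R, hR, h3⟩ := hF
    exact le_of_up (h.full R _ hR fun m hm => h.xy J H R m ⟨hR, hm⟩ (h3 m hm))
  · exact h.rem s J H hs h1 h2 hH fun R hR => hF ⟨R, hR⟩

/-- Removal of points. -/
theorem rem_all [Finite P] (hU : UCF P U) {J : Set P} {H : Set (Set P × P)} (hJ : Cl U J)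
    (hH : ∀ j ∈ H, IsSh j) (n : ℕ) : ∀ J' : Set P, J ⊆ J' → Cl U J' → (J' \ J).ncard = n →
      Le B (X J' H) (X J H) := by
  induction n with
  | zero =>
    intro J' h1 _ h3
    have h4 : J' \ J = ∅ := (Set.ncard_eq_zero (Set.toFinite _)).1 h3
    have h5 : J' = J := Set.Subset.antisymm (Set.sdiff_eq_empty.1 h4) h1
    rw [h5]
    exact fun _ _ hX => hX
  | succ n ih =>
    intro J' h1 h2 h3
    have h4 : (J' \ J).Nonempty := by
      rw [Set.nonempty_iff_ne_empty]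
      intro h4
      rw [h4, Set.ncard_empty] at h3
      exact Nat.succ_ne_zero n h3.symm
    obtain ⟨s, hs⟩ := (Set.toFinite (J' \ J)).exists_minimal h4
    have hsJ' : s ∈ J' := hs.1.1
    have hsJ : s ∉ J := hs.1.2
    have h5 : insert s (J' \ {s}) = J' := by
      rw [Set.insert_sdiff_singleton, Set.insert_eq_of_mem hsJ']
    have h6 : Cl U (J' \ {s}) := by
      intro a ha b hab
      refine ⟨h2 a ha.1 b hab, fun hb => ?_⟩
      obtain rfl : b = s := hb
      have hlt := knows_lt hU hab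
      by_cases haJ : a ∈ J
      · exact hsJ (hJ a haJ _ hab)
      · exact absurd (hs.2 ⟨ha.1, haJ⟩ hlt.le) (not_le_of_gt hlt)
    have h7 : (J' \ {s}) \ J = (J' \ J) \ {s} := by
      ext a
      simp only [Set.mem_sdiff, Set.mem_singleton_iff]
      tauto
    have h8 := ih (J' \ {s}) (fun a ha => ⟨h1 ha, fun hb => hsJ ((show a = s from hb) ▸ ha)⟩)
      h6 (by rw [h7, Set.ncard_sdiff_singleton_of_mem hs.1, h3]; rfl)
    refine Le.trans ?_ h8
    have h9 := rem' h (s := s) (J := J' \ {s}) (fun hb => hb.2 rfl) h6 (by rw [h5]; exact h2) hH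
    rwa [h5] at h9

/-- Removal of shares. -/
theorem rsh_all [Finite P] (hU : UCF P U) {c b : P} (hcb : c < b) {J : Set P}
    {H : Set (Set P × P)} (hp : Pat U b J H) (n : ℕ) : ∀ H' : Set (Set P × P), H ⊆ H' →
      (∀ j ∈ H', j ∉ H → Kn c j) → (H' \ H).ncard = n → Le B (X J H') (X J H) := by
  classical
  induction n with
  | zero =>
    intro H' h1 _ h3
    have h4 : H' \ H = ∅ := (Set.ncard_eq_zero (Set.toFinite _)).1 h3
    have h5 : H' = H := Set.Subset.antisymm (Set.sdiff_eq_empty.1 h4) h1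
    rw [h5]
    exact fun _ _ hX => hX
  | succ n ih =>
    intro H' h1 h2 h3
    have h4 : (H' \ H).Nonempty := by
      rw [Set.nonempty_iff_ne_empty]
      intro h4
      rw [h4, Set.ncard_empty] at h3
      exact Nat.succ_ne_zero n h3.symm
    -- all shares which are removed are paid
    have hpay : ∀ j ∈ H', j ∉ H → PM J H j.1 := by
      intro j hj hjH
      have hK := h2 j hj hjH
      by_cases hb : b ∈ lowerBounds j.1
      · exact hp.kn j ⟨hK.1, hb, fun h5 => hK.2.2 (hcb.le.trans h5)⟩ hjH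
      · exact PM.mk j.1 b hb hp.up fun R' m _ hK' hn => hp.kn (R', m) hK' hn
    -- the choice of the share
    have hch : ∃ R m, (R, m) ∈ H' ∧ (R, m) ∉ H ∧ (m ≠ la R → (R, la R) ∉ H' \ {(R, m)}) := by
      by_cases h5 : ∃ R, (R, la R) ∈ H' \ H
      · obtain ⟨R, h6, h7⟩ := h5
        exact ⟨R, la R, h6, h7, fun h8 => (h8 rfl).elim⟩
      · obtain ⟨⟨R, m⟩, h6, h7⟩ := h4
        refine ⟨R, m, h6, h7, fun _ h9 => ?_⟩
        have h10 : (R, la R) ∈ H := by
          by_contra h11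
          exact h5 ⟨R, h9.1, h11⟩
        exact hp.np _ h10 (hpay (R, m) h6 h7)
    obtain ⟨R, m, h5, h6, h7⟩ := hch
    have hK : Kn c (R, m) := h2 _ h5 h6
    have hPM : PM J H R := hpay _ h5 h6
    have hIs : ∀ j ∈ H', IsSh j := fun j hj => by
      by_cases hjH : j ∈ H
      · exact (hp.sh j hjH).1
      · exact (h2 j hj hjH).1
    have h8 : insert (R, m) (H' \ {(R, m)}) = H' := by
      rw [Set.insert_sdiff_singleton, Set.insert_eq_of_mem h5]
    have hHs : H ⊆ H' \ {(R, m)} := fun a ha =>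
      ⟨h1 ha, fun hb => h6 ((show a = (R, m) from hb) ▸ ha)⟩
    have h9 : (H' \ {(R, m)}) \ H = (H' \ H) \ {(R, m)} := by
      ext a
      simp only [Set.mem_sdiff, Set.mem_singleton_iff]
      tauto
    have h10 := ih (H' \ {(R, m)}) hHs (fun j hj hjH => h2 j hj.1 hjH)
      (by rw [h9, Set.ncard_sdiff_singleton_of_mem (show (R, m) ∈ H' \ H from ⟨h5, h6⟩), h3]; rfl)
    refine Le.trans ?_ h10
    by_cases hF : ∃ R', Full H' R'
    · obtain ⟨R', hR', hf⟩ := hF
      by_cases hRR : R' = R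
      · subst hRR
        exfalso
        refine nonfull c R' ⟨hR', fun m' hm' => ?_⟩
        refine h2 _ (hf m' hm') fun h11 => ?_
        exact hp.np _ h11 hPM
      · refine le_of_up (h.full R' _ hR' fun m' hm' => h.xy _ _ R' m' ⟨hR', hm'⟩ ⟨hf m' hm', ?_⟩)
        exact fun h11 => hRR (congrArg Prod.fst h11)
    · have h11 := h.rsh R m J (H' \ {(R, m)}) hK.1 (fun h12 => h12.2 rfl) hp.cl
        (fun j hj => hIs j hj.1) (by rw [h8]; exact fun R' hR' => hF ⟨R', hR'⟩) h7 ?_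
        (pm_x h hHs hPM hK.1.1)
      · rwa [h8] at h11
      · intro s hs r hr
        by_contra h12
        obtain ⟨_, t, ht, hJ, -⟩ := hPM
        exact ht (lb_down (lb_down hr (knows_lt hU h12).le) (hJ s hs))

/-- ATT: the pattern of `c` is below the patterns of the kind `b`. -/
theorem att [Finite P] (hU : UCF P U) {c b : P} (hcb : c ∉ U b) {J : Set P}
    {H : Set (Set P × P)} (hp : Pat U b J H) : Le B (Xc X c) (X J H) := by
  have hlt := knows_lt hU hcb
  have hIs : ∀ j ∈ {j | Kn c j} ∪ H, IsSh j := by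
    rintro j (hj | hj)
    · exact hj.1
    · exact (hp.sh j hj).1
  have h1 : Le B (Xc X c) (X (Set.Ici c) ({j | Kn c j} ∪ H)) := by
    refine le_of_red (h.xl _ _ _ (fun s hs => h.xo _ _ s hs) (fun s hs => h.xv _ _ s hs)
      fun R m hR hj => h.xy _ _ R m hR (Or.inl hj))
  have h2 : Le B (X (Set.Ici c) ({j | Kn c j} ∪ H)) (X J ({j | Kn c j} ∪ H)) :=
    rem_all h hU hp.cl hIs _ (Set.Ici c) (fun s hs => hlt.le.trans (hp.up s hs))
      (pat_self hU c).cl rfl
  have h3 : Le B (X J ({j | Kn c j} ∪ H)) (X J H) :=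
    rsh_all h hU hlt hp _ _ Set.subset_union_right (fun j hj hjH => hj.resolve_right hjH) rfl
  exact Le.trans h1 (Le.trans h2 h3)

/-- KILL. -/
theorem not_mem [Finite P] (hU : UCF P U) {c s : P} (hcs : c ≤ s) : Xc X c ∉ A s := by
  intro hc
  obtain ⟨y, b, J, H, h1, h2, h3, h4, h5⟩ := h.kill c s hcs hc
  exact h4 (att h hU (fun h6 => h1 (hU.upper b c s h6 hcs)) h2 y h3 h5)

/-- The pattern of `c` has the type `c`. -/
theorem mem_DE (c : P) : Xc X c ∈ DE A (fun s => Up {V s} ∪ A s) (FF M Y) c :=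
  ⟨⟨fun s hs => isC_up (h.clsA s) (h.oA s) (h.xo _ _ s hs),
    fun R m _ hK => Or.inl ⟨_, rfl, h.xy _ _ R m hK.1 hK⟩⟩,
    fun s hs => Or.inl ⟨_, rfl, h.xv _ _ s hs⟩⟩

/-- The pattern of a real of the type `t`. -/
theorem pat_of_real [Finite P] (hU : UCF P U) {t : P} {W : ℕ → ℕ} (hW : W ∉ Up B)
    (hD : W ∈ DE A (fun s => Up {V s} ∪ A s) (FF M Y) t) :
    Pat U t {s | W ∉ A s}
      {j | IsSh j ∧ t ∈ lowerBounds j.1 ∧ Red (Y j.1 j.2) W ∧ W ∉ M j.1} := by
  have hup : ∀ s ∈ {s | W ∉ A s}, t ≤ s := by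
    intro s hs
    by_contra h1
    exact hs (hD.1.1 s h1)
  have hred : ∀ s ∈ {s | W ∉ A s}, Red (V s) W := by
    intro s hs
    rcases hD.2 s (hup s hs) with ⟨f, h1, h2⟩ | h1
    · obtain rfl : f = V s := h1
      exact h2
    · exact (hs h1).elim
  have hpm := w_pm h (J := {s | W ∉ A s})
      (H := {j | IsSh j ∧ t ∈ lowerBounds j.1 ∧ Red (Y j.1 j.2) W ∧ W ∉ M j.1})
      hW (b := t) (fun s hs => hs) (fun R m h1 h2 h3 h4 => ⟨h1, h2, h3, h4⟩)
  refine ⟨hup, ?_, fun j hj => ⟨hj.1, hj.2.1⟩, ?_, ?_, ?_⟩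
  · intro s hs s' hss'
    by_contra h1
    have h2 : W ∈ A s' := by
      by_contra h3
      exact h1 h3
    exact hs (h.list s s' (Set.Ici s') {j | Kn s' j} (A s') hss' (pat_self hU s') (h.clsA s')
      (not_mem h hU (le_refl s')) W (hred s hs) h2)
  · intro j hj h1
    refine hj.2.2.2 (pm_w h (fun s hs => ?_) (fun R m hR => hR.2.2.1) h1 hj.1.1)
    by_contra h2
    exact hs h2
  · rintro R ⟨hR, h1⟩
    exact hW (h.full R W hR fun m hm => (h1 m hm).2.2.1)
  · intro j hK hj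
    refine hpm j.1 hK.1.1 hK.2.1 ?_
    rcases hD.1.2 j.1 j.2 trivial hK with ⟨f, h1, h2⟩ | h1
    · obtain rfl : f = Y j.1 j.2 := h1
      by_contra h3
      exact hj ⟨hK.1, hK.2.1, h2, h3⟩
    · exact h1

/-- The windows. -/
theorem win [Finite P] (hU : UCF P U) {s t : P} (hst : s ∉ U t) {y : Set (ℕ → ℕ)}
    (hy : IsC B y) (hD : ¬ DE A (fun s => Up {V s} ∪ A s) (FF M Y) t ⊆ y) {Z : ℕ → ℕ}
    (hZ : Z ∈ Up {V s} ∪ A s) (hZy : Z ∈ y) : Z ∈ A s := by
  rcases hZ with ⟨f, h1, h2⟩ | hZ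
  · obtain rfl : f = V s := h1
    obtain ⟨W, hW1, hW2⟩ := Set.not_subset.1 hD
    have hWB : W ∉ Up B := fun h3 => hW2 (isC_B hy h3)
    have hp := pat_of_real h hU hWB hW1
    refine h.list s t _ _ y hst hp hy (fun h3 => hW2 ?_) Z h2 hZy
    refine h.hit t _ _ hp W hWB ?_ (fun s hs => ?_) (fun R m hR => hR.2.2.1) y hy h3
    · intro s hs
      rcases hW1.2 s (hp.up s hs) with ⟨f, h4, h5⟩ | h4
      · obtain rfl : f = V s := h4
        exact h5
      · exact (hs h4).elim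
    · by_contra h4
      exact hs h4
  · exact hZ

end Real

end Glue

open Glue

/-- The interface OBJ gives the lattice statement. -/
theorem lt3_of_obj {P : Type} [Finite P] [PartialOrder P] {U : P → Set P} (hU : UCF P U)
    {D : Type} [PartialOrder D] {B : Set (ℕ → ℕ)} {up : D → Set (ℕ → ℕ)} (hF : IsFrame D B up)
    {A : P → Set (ℕ → ℕ)} {M : Set P → Set (ℕ → ℕ)} {O V : P → ℕ → ℕ} {Y : Set P → P → ℕ → ℕ}
    {X : Set P → Set (Set P × P) → ℕ → ℕ} {la : Set P → P} (h : Obj B U A M O V Y X la) :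
    LT3 D B up U A (fun s => Up {V s} ∪ A s) (FF M Y) where
  clsA := h.clsA
  clsW := h.clsW
  clsF := h.clsF
  sub := fun _ => Set.subset_union_right
  zero := by
    intro c hc
    rcases hc.2 c le_rfl with ⟨f, h1, h2⟩ | h1
    · obtain rfl : f = V c := h1
      exact h.nc c h2
    · exact not_mem h hU (le_refl c) (isC_up (h.clsA c) h1 (AE.Sound.red_zero _))
  low := by
    intro R m t hR ht X hX
    refine Or.inr ?_
    rw [h.meq R hR.1]
    exact Or.inl ⟨t, ht, hX⟩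
  join := by
    intro R hR X hX hm
    by_cases h1 : X ∈ M R
    · rw [h.meq R hR] at h1
      exact h1.resolve_right hX
    · refine (hX (h.full R X hR fun m hm' => ?_)).elim
      rcases hm m hm' with ⟨f, h2, h3⟩ | h2
      · obtain rfl : f = Y R m := h2
        exact h3
      · exact (h1 h2).elim
  win := by
    intro s t hst y hy X hX hXy
    obtain ⟨S, h1, h2⟩ := hF.rep y
    exact win h hU hst ⟨S, h1, h2⟩ hy hX hXy
  ex := fun c => ⟨Xc X c, mem_DE h c, not_mem h hU (le_refl c)⟩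

/-- If every finite UC frame has its objects, then the `∀∃`-theory of the Cantor lattice is
decidable. -/
theorem decidable_of_obj
    (hO : ∀ B : Set (ℕ → ℕ), ClosedC B → B.Nonempty → Bin B → (∀ G, IsGeneric G → G ∉ Up B) →
      (fun _ : ℕ => 0) ∉ Up B → ∀ (P : Type) [Finite P] [PartialOrder P] (U : P → Set P),
        UCF P U → ∃ A M O V Y X la, Obj B U A M O V Y X la) :
    ∃ f : ℕ × ℕ → Bool, Computable f ∧
      ∀ n φ, f (n, QF.code φ) = true ↔ AETrue PwCantor n φ := by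
  obtain ⟨⟨B, up, h1, h2, h3, h4, h5⟩, -⟩ := AE.frame AE.top
  refine mainf'.1 B up h1 h5 (ucr h1 h2 fun P _ _ U hU => ?_)
  obtain ⟨A, M, O, V, Y, X, la, h⟩ := hO B h1.closed h2 h3 h4 h5 P U hU
  exact lt3_realised h1 h5 hU (lt3_of_obj hU h1 h)

end Pool.Agent.Lib.MP_d48993_lc.Real
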