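import Pool.Agent.Lib.MP_d48993_lc.AE.Bound.Lt2

/-!
# Module LT3 (finding 4048): shares for the maximal lower bounds

For every point `s` of a UC frame there are a class `A s` and a class `W s ⊇ A s`; for every
set `R = UB(G)` which is not principal, and every maximal lower bound `m` of `R`, there is a class
`F R m` (a share). It is known to the lower bounds of `R` which are not below `m`.
-/

set_option autoImplicit false

namespace Pool.Agent.Lib.MP_d48993_lc.Real

open Pool.Agent.Lib.MP_d48993_lc.Bound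

section Defs

variable {P : Type} [PartialOrder P]

/-- `(R, m)` is a share. -/
def IsSh (j : Set P × P) : Prop := Good j.1 ∧ Maximal (· ∈ lowerBounds j.1) j.2

/-- The share `j` is known to `t`. -/
def Kn (t : P) (j : Set P × P) : Prop := IsSh j ∧ t ∈ lowerBounds j.1 ∧ ¬ t ≤ j.2

/-- The class of the payers of the kind `t`, with the shares of the sets `R` with `p R`. -/
def EE (A : P → Set (ℕ → ℕ)) (F : Set P → P → Set (ℕ → ℕ)) (p : Set P → Prop) (t : P) :
    Set (ℕ → ℕ) :=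
  {X | (∀ s, ¬ t ≤ s → X ∈ A s) ∧ ∀ R m, p R → Kn t (R, m) → X ∈ F R m}

/-- The class of the type `c`. -/
def DE (A W : P → Set (ℕ → ℕ)) (F : Set P → P → Set (ℕ → ℕ)) (c : P) : Set (ℕ → ℕ) :=
  {X | X ∈ EE A F (fun _ => True) c ∧ ∀ s, c ≤ s → X ∈ W s}

/-- The lattice statement with shares, second version. -/
structure LT3 (D : Type) [PartialOrder D] (B : Set (ℕ → ℕ)) (up : D → Set (ℕ → ℕ))
    (U : P → Set P) (A W : P → Set (ℕ → ℕ)) (F : Set P → P → Set (ℕ → ℕ)) : Prop where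
  clsA : ∀ s, IsC B (A s)
  clsW : ∀ s, IsC B (W s)
  clsF : ∀ R m, IsSh (R, m) → IsC B (F R m)
  sub : ∀ s, A s ⊆ W s
  zero : ∀ c, (fun _ => 0) ∉ DE A W F c
  low : ∀ R m t, IsSh (R, m) → t ∉ lowerBounds R → EE A F (· ⊂ R) t ⊆ F R m
  join : ∀ R, Good R → ∀ X, X ∉ Up B → (∀ m, Maximal (· ∈ lowerBounds R) m → X ∈ F R m) →
    ∃ t, t ∉ lowerBounds R ∧ X ∈ EE A F (· ⊂ R) t
  win : ∀ s t, s ∉ U t → ∀ y : D, ¬ DE A W F t ⊆ up y → ∀ X ∈ W s, X ∈ up y → X ∈ A s
  ex : ∀ c, ∃ X ∈ DE A W F c, X ∉ A c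

end Defs

namespace Lt3m

variable {P : Type} [PartialOrder P] {U : P → Set P} {D : Type} [PartialOrder D]
  {B : Set (ℕ → ℕ)} {up : D → Set (ℕ → ℕ)} {A W : P → Set (ℕ → ℕ)}
  {F : Set P → P → Set (ℕ → ℕ)}

theorem EE_mono {p p' : Set P → Prop} (hp : ∀ R, p R → p' R) (c : P) :
    EE A F p' c ⊆ EE A F p c :=
  fun _ hX => ⟨hX.1, fun R m hR => hX.2 R m (hp R hR)⟩

theorem DE_mono (h : LT3 D B up U A W F) {c d : P} (hcd : c ≤ d) :
    DE A W F d ⊆ DE A W F c := by
  intro X hX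
  refine ⟨⟨fun s hs => hX.1.1 s fun h4 => hs (hcd.trans h4), ?_⟩, fun s hs => ?_⟩
  · intro R m _ hK
    by_cases hd : d ∈ lowerBounds R
    · exact hX.1.2 R m trivial ⟨hK.1, hd, fun h5 => hK.2.2 (hcd.trans h5)⟩
    · exact h.low R m d hK.1 hd (EE_mono (fun _ _ => trivial) d hX.1)
  · by_cases h4 : d ≤ s
    · exact hX.2 s h4
    · exact h.sub s (hX.1.1 s h4)

/-- The situation in the proof of `join`. -/
structure Sit (A : P → Set (ℕ → ℕ)) (F : Set P → P → Set (ℕ → ℕ)) (x y : P) (X : ℕ → ℕ)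
    (G : Set P) : Prop where
  hx : x ∈ G
  hy : y ∈ G
  a : ∀ g ∈ G, ∀ s, ¬ g ≤ s → X ∈ A s
  f : ∀ g ∈ G, ∀ R m, R ⊆ upperBounds G → Kn g (R, m) → X ∈ F R m

theorem join_aux (h : LT3 D B up U A W F) {x y : P} {X : ℕ → ℕ} (hX : X ∉ Up B)
    (hx : X ∈ DE A W F x) (n : ℕ) [Finite P] : ∀ G : Set P,
      (upperBounds G).ncard < n → Sit A F x y X G → ∃ b, x ≤ b ∧ y ≤ b ∧ X ∈ DE A W F b := by
  induction n with
  | zero => exact fun G hn => (Nat.not_lt_zero _ hn).elim
  | succ n ih =>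
    intro G hn hG
    by_cases h3 : ∃ b, upperBounds G = Set.Ici b
    · obtain ⟨l, hl⟩ := h3
      have hlG : l ∈ upperBounds G := by rw [hl]; exact Set.self_mem_Ici
      refine ⟨l, hlG hG.hx, hlG hG.hy, ⟨?_, ?_⟩, ?_⟩
      · intro s hs
        have h4 : s ∉ upperBounds G := by rw [hl]; exact hs
        have h5 : ∃ g ∈ G, ¬ g ≤ s := by
          by_contra h6
          exact h4 fun g hg => by
            by_contra h7
            exact h6 ⟨g, hg, h7⟩
        obtain ⟨g, hg, h6⟩ := h5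
        exact hG.a g hg s h6
      · intro R m _ hK
        have h4 : m ∉ upperBounds G := by rw [hl]; exact hK.2.2
        have h5 : ∃ g ∈ G, ¬ g ≤ m := by
          by_contra h6
          exact h4 fun g hg => by
            by_contra h7
            exact h6 ⟨g, hg, h7⟩
        obtain ⟨g, hg, h6⟩ := h5
        refine hG.f g hg R m ?_ ⟨hK.1, fun r hr => (hlG hg).trans (hK.2.1 hr), h6⟩
        intro r hr
        rw [hl]
        exact hK.2.1 hr
      · exact fun s hs => hx.2 s ((hlG hG.hx).trans hs)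
    · have h3' : ∀ b, upperBounds G ≠ Set.Ici b := fun b hb => h3 ⟨b, hb⟩
      have hgood : Good (upperBounds G) := ⟨⟨G, ⟨x, hG.hx⟩, rfl⟩, h3'⟩
      have h4 : ∀ m, Maximal (· ∈ lowerBounds (upperBounds G)) m → X ∈ F (upperBounds G) m := by
        intro m hm
        have h5 : ∃ g ∈ G, ¬ g ≤ m := by
          by_contra h6
          have h7 : m ∈ upperBounds G := fun g hg => by
            by_contra h8
            exact h6 ⟨g, hg, h8⟩
          refine h3' m (Set.Subset.antisymm (fun r hr => hm.1 hr) fun r hr g hg => ?_)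
          exact (h7 hg).trans hr
        obtain ⟨g, hg, h6⟩ := h5
        exact hG.f g hg _ m subset_rfl ⟨⟨hgood, hm⟩, fun r hr => hr hg, h6⟩
      obtain ⟨t, ht, hXt⟩ := h.join _ hgood X hX h4
      have hsub : upperBounds (insert t G) ⊂ upperBounds G := by
        refine ⟨upperBounds_mono_set (Set.subset_insert t G), fun h5 => ht fun r hr => ?_⟩
        exact h5 hr (Set.mem_insert t G)
      refine ih (insert t G) ?_ ⟨Set.mem_insert_of_mem t hG.hx, Set.mem_insert_of_mem t hG.hy,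
        ?_, ?_⟩
      · have h5 := Set.ncard_lt_ncard hsub (Set.toFinite _)
        omega
      · rintro g (rfl | hg) s hs
        · exact hXt.1 s hs
        · exact hG.a g hg s hs
      · rintro g (rfl | hg) R m hRG hK
        · exact hXt.2 R m (lt_of_le_of_lt hRG hsub) hK
        · exact hG.f g hg R m (hRG.trans hsub.1) hK

theorem join [Finite P] (h : LT3 D B up U A W F) {x y : P} {X : ℕ → ℕ}
    (hX : X ∉ Up B) (hx : X ∈ DE A W F x) (hy : X ∈ DE A W F y) :
    ∃ b, x ≤ b ∧ y ≤ b ∧ X ∈ DE A W F b := by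
  refine join_aux h hX hx _ {x, y} (Nat.lt_succ_self _) ⟨Or.inl rfl, Or.inr rfl, ?_, ?_⟩
  · rintro g (rfl | rfl) s hs
    · exact hx.1.1 s hs
    · exact hy.1.1 s hs
  · rintro g (rfl | rfl) R m _ hK
    · exact hx.1.2 R m trivial hK
    · exact hy.1.2 R m trivial hK

theorem isC_if' {p : Prop} {V : Set (ℕ → ℕ)} (h : p → IsC B V) : IsC B {X | p → X ∈ V} := by
  by_cases hp : p
  · exact Ltm.isC_if (h hp)
  · have e : {X : ℕ → ℕ | p → X ∈ V} = Set.univ := by
      ext X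
      simp [hp]
    rw [e]
    exact Ltm.isC_univ

theorem isC_EE [Finite P] (hA : ∀ s, IsC B (A s)) {p : Set P → Prop}
    (hF : ∀ R m, p R → IsSh (R, m) → IsC B (F R m)) (c : P) : IsC B (EE A F p c) := by
  have e : EE A F p c = {X | ∀ s, X ∈ {X | ¬ c ≤ s → X ∈ A s}} ∩
        {X | ∀ R : Set P, X ∈ {X | ∀ m, X ∈ {X | (p R ∧ Kn c (R, m)) → X ∈ F R m}}} := by
    ext X
    constructor
    · rintro ⟨h1, h2⟩
      exact ⟨h1, fun R m h4 => h2 R m h4.1 h4.2⟩
    · rintro ⟨h1, h2⟩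
      exact ⟨h1, fun R m h4 h5 => h2 R m ⟨h4, h5⟩⟩
  rw [e]
  exact Ltm.isC_inter (Ltm.isC_iInter _ fun s => Ltm.isC_if (hA s))
    (Ltm.isC_iInter _ fun R => Ltm.isC_iInter _ fun m => isC_if' fun h1 => hF R m h1.1 h1.2.1)

theorem isC_DE [Finite P] (h : LT3 D B up U A W F) (c : P) : IsC B (DE A W F c) := by
  have e : DE A W F c = EE A F (fun _ => True) c ∩ {X | ∀ s, X ∈ {X | c ≤ s → X ∈ W s}} := rfl
  rw [e]
  exact Ltm.isC_inter (isC_EE h.clsA (fun R m _ => h.clsF R m) c)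
    (Ltm.isC_iInter _ fun s => Ltm.isC_if (h.clsW s))

end Lt3m

open Lt3m in
/-- The lattice statement with shares realises the frame. -/
theorem lt3_realised {D : Type} [PartialOrder D] {B : Set (ℕ → ℕ)} {up : D → Set (ℕ → ℕ)}
    (hF : IsFrame D B up) (h0 : (fun _ : ℕ => 0) ∉ Up B) {P : Type} [Finite P] [PartialOrder P]
    {U : P → Set P} (hU : UCF P U) {A W : P → Set (ℕ → ℕ)} {F : Set P → P → Set (ℕ → ℕ)}
    (h : LT3 D B up U A W F) : RealisedU D B up P U := by
  refine Ltm.realised_of_classes hF h0 (DE A W F) (isC_DE h) (fun c d hcd => DE_mono h hcd)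
    (fun x y X hX hx hy => join h hX hx hy) h.zero ?_ ?_
  · intro k
    obtain ⟨X, h2, h3⟩ := h.ex k
    refine ⟨X, ?_, h2, ?_⟩
    · intro h4
      obtain ⟨S, -, h5⟩ := h.clsA k
      exact h3 (by rw [h5]; exact Or.inr h4)
    · intro l _ h6
      by_contra h7
      exact h3 (h6.1.1 k h7)
  · intro k l hkl X h2 h3 y hy
    by_contra h5
    obtain ⟨p, p1, p2, p3⟩ := hU.least l k
    have h6 : X ∈ DE A W F p := by
      refine ⟨⟨fun s hs => ?_, ?_⟩, fun s hs => h2.2 s (p1.trans hs)⟩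
      · by_cases h7 : k ≤ s
        · exact h.win s l (fun h8 => hs (p3 s h7 h8)) y h5 X (h2.2 s h7) hy
        · exact h2.1.1 s h7
      · intro R m _ hK
        refine h2.1.2 R m trivial ⟨hK.1, fun r hr => p1.trans (hK.2.1 hr), fun h7 => ?_⟩
        obtain ⟨q, q1, q2, q3⟩ := hU.least l m
        have hq : q ∈ lowerBounds R := fun r hr =>
          q3 r (hK.1.2.1 hr) (hU.upper l p r p2 (hK.2.1 hr))
        have hqm : q ≤ m := hK.1.2.2 hq q1
        exact hK.2.2 (p3 m h7 (hU.upper l q m q2 hqm))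
    have h7 : p = k := le_antisymm (h3 p h6) p1
    exact hkl (h7 ▸ p2)

end Pool.Agent.Lib.MP_d48993_lc.Real
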