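import Pool.Agent.Lib.MP_d48993_lc.AE.Real.Glue

/-!
# The field `kill` of the interface OBJ from KILL, self-payment and KILLN (finding 4190, K5)
-/

set_option autoImplicit false

namespace Pool.Agent.Lib.MP_d48993_lc.Real

open Pool.Agent.Lib.MP_d48993_lc.Bound

variable {P : Type} [PartialOrder P]

namespace Glue

variable {U : P → Set P} {B : Set (ℕ → ℕ)} {X : Set P → Set (Set P × P) → ℕ → ℕ} {la : Set P → P}

/-- All points are removed. -/
theorem rem_pts [Finite P] (hU : UCF P U)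
    (hrem : ∀ s J H, s ∉ J → Cl U J → Cl U (insert s J) → (∀ j ∈ H, IsSh j) →
      (∀ R, ¬ Full H R) → Le B (X (insert s J) H) (X J H))
    {H : Set (Set P × P)} (hH : ∀ j ∈ H, IsSh j) (hF : ∀ R, ¬ Full H R) (n : ℕ) :
    ∀ J : Set P, Cl U J → J.ncard = n → Le B (X J H) (X ∅ H) := by
  induction n with
  | zero =>
    intro J _ h3
    have h4 : J = ∅ := (Set.ncard_eq_zero (Set.toFinite _)).1 h3
    rw [h4]
    exact fun _ _ hX => hX
  | succ n ih =>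
    intro J h2 h3
    have h4 : J.Nonempty := by
      rw [Set.nonempty_iff_ne_empty]
      intro h4
      rw [h4, Set.ncard_empty] at h3
      exact Nat.succ_ne_zero n h3.symm
    obtain ⟨s, hs⟩ := (Set.toFinite J).exists_minimal h4
    have h5 : insert s (J \ {s}) = J := by
      rw [Set.insert_sdiff_singleton, Set.insert_eq_of_mem hs.1]
    have h6 : Cl U (J \ {s}) := by
      intro a ha b hab
      refine ⟨h2 a ha.1 b hab, fun hb => ?_⟩
      obtain rfl : b = s := hb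
      have hlt := knows_lt hU hab
      exact absurd (hs.2 ha.1 hlt.le) (not_le_of_gt hlt)
    have h8 := ih (J \ {s}) h6 (by rw [Set.ncard_sdiff_singleton_of_mem hs.1, h3]; rfl)
    refine Le.trans ?_ h8
    have h9 := hrem s (J \ {s}) H (fun hb => hb.2 rfl) h6 (by rw [h5]; exact h2) hH hF
    rwa [h5] at h9

/-- All shares are removed without payments. -/
theorem rem_shs [Finite P]
    (hself : ∀ R m H, IsSh (R, m) → (R, m) ∉ H → (∀ j ∈ H, IsSh j) →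
      (∀ R', ¬ Full (insert (R, m) H) R') → (m ≠ la R → (R, la R) ∉ H) →
      X ∅ (insert (R, m) H) ∈ Up B → X ∅ H ∈ Up B) (n : ℕ) :
    ∀ H : Set (Set P × P), (∀ j ∈ H, IsSh j) → (∀ R, ¬ Full H R) → H.ncard = n →
      X ∅ H ∈ Up B → X ∅ ∅ ∈ Up B := by
  induction n with
  | zero =>
    intro H _ _ h3 hX
    have h4 : H = ∅ := (Set.ncard_eq_zero (Set.toFinite _)).1 h3
    rwa [h4] at hX
  | succ n ih =>
    intro H hH hF h3 hX
    have h4 : H.Nonempty := by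
      rw [Set.nonempty_iff_ne_empty]
      intro h4
      rw [h4, Set.ncard_empty] at h3
      exact Nat.succ_ne_zero n h3.symm
    have hch : ∃ R m, (R, m) ∈ H ∧ (m ≠ la R → (R, la R) ∉ H \ {(R, m)}) := by
      by_cases h5 : ∃ R, (R, la R) ∈ H
      · obtain ⟨R, h6⟩ := h5
        exact ⟨R, la R, h6, fun h8 => (h8 rfl).elim⟩
      · obtain ⟨⟨R, m⟩, h6⟩ := h4
        exact ⟨R, m, h6, fun _ h9 => h5 ⟨R, h9.1⟩⟩
    obtain ⟨R, m, h5, h7⟩ := hch
    have h8 : insert (R, m) (H \ {(R, m)}) = H := by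
      rw [Set.insert_sdiff_singleton, Set.insert_eq_of_mem h5]
    refine ih (H \ {(R, m)}) (fun j hj => hH j hj.1) (fun R' hR' => hF R' ⟨hR'.1, fun m' hm' =>
      (hR'.2 m' hm').1⟩) (by rw [Set.ncard_sdiff_singleton_of_mem h5, h3]; rfl) ?_
    refine hself R m (H \ {(R, m)}) (hH _ h5) (fun h => h.2 rfl) (fun j hj => hH j hj.1)
      (by rw [h8]; exact hF) h7 ?_
    rw [h8]
    exact hX

/-- The pattern of `c` computes no member of `B`. -/
theorem xB [Finite P] (hU : UCF P U) (hB : ClosedC B)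
    (hrem : ∀ s J H, s ∉ J → Cl U J → Cl U (insert s J) → (∀ j ∈ H, IsSh j) →
      (∀ R, ¬ Full H R) → Le B (X (insert s J) H) (X J H))
    (hself : ∀ R m H, IsSh (R, m) → (R, m) ∉ H → (∀ j ∈ H, IsSh j) →
      (∀ R', ¬ Full (insert (R, m) H) R') → (m ≠ la R → (R, la R) ∉ H) →
      X ∅ (insert (R, m) H) ∈ Up B → X ∅ H ∈ Up B)
    (hzero : X ∅ ∅ ∉ Up B) (c : P) : Xc X c ∉ Up B := by
  intro h
  refine hzero (rem_shs hself _ {j | Kn c j} (fun j hj => hj.1) (nonfull c) rfl ?_)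
  exact rem_pts hU hrem (H := {j | Kn c j}) (fun j hj => hj.1) (nonfull c) _ (Set.Ici c)
    (pat_self hU c).cl rfl _ (Treec.isC_self hB) h

end Glue

open Glue

/-- Interface OBJB: the objects of the frame `(P, U)`, with the three parts of the field `kill`. -/
structure ObjB (B : Set (ℕ → ℕ)) (U : P → Set P) (A : P → Set (ℕ → ℕ)) (M : Set P → Set (ℕ → ℕ))
    (O V : P → ℕ → ℕ) (Y : Set P → P → ℕ → ℕ) (X : Set P → Set (Set P × P) → ℕ → ℕ)
    (la : Set P → P) : Prop where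
  clsA : ∀ s, IsC B (A s)
  clsW : ∀ s, IsC B (Up {V s} ∪ A s)
  clsF : ∀ R m, IsSh (R, m) → IsC B (FF M Y R m)
  meq : ∀ R, Good R → M R = {W | ∃ t, t ∉ lowerBounds R ∧ W ∈ EE A (FF M Y) (· ⊂ R) t} ∪ Up B
  full : ∀ R Z, Good R → (∀ m, Maximal (· ∈ lowerBounds R) m → Red (Y R m) Z) → Z ∈ Up B
  nc : ∀ s, ¬ Red (V s) (fun _ => 0)
  oA : ∀ s, O s ∈ A s
  xo : ∀ J H s, s ∉ J → Red (O s) (X J H)
  xv : ∀ J H s, s ∈ J → Red (V s) (X J H)
  xy : ∀ J H R m, IsSh (R, m) → (R, m) ∈ H → Red (Y R m) (X J H)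
  xl : ∀ J H Z, (∀ s, s ∉ J → Red (O s) Z) → (∀ s ∈ J, Red (V s) Z) →
    (∀ R m, IsSh (R, m) → (R, m) ∈ H → Red (Y R m) Z) → Red (X J H) Z
  hit : ∀ b J H, Pat U b J H → ∀ W, W ∉ Up B → (∀ s ∈ J, Red (V s) W) → (∀ s, s ∉ J → W ∈ A s) →
    (∀ R m, (R, m) ∈ H → Red (Y R m) W) → Le B (X J H) W
  rem : ∀ s J H, s ∉ J → Cl U J → Cl U (insert s J) → (∀ j ∈ H, IsSh j) → (∀ R, ¬ Full H R) →
    Le B (X (insert s J) H) (X J H)
  rsh : ∀ R m J H, IsSh (R, m) → (R, m) ∉ H → Cl U J → (∀ j ∈ H, IsSh j) →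
    (∀ R', ¬ Full (insert (R, m) H) R') → (m ≠ la R → (R, la R) ∉ H) →
    (∀ s ∈ J, ∀ r ∈ lowerBounds R, s ∈ U r) → X J H ∈ M R → Le B (X J (insert (R, m) H)) (X J H)
  list : ∀ s b J H y, s ∉ U b → Pat U b J H → IsC B y → X J H ∉ y →
    ∀ Z, Red (V s) Z → Z ∈ y → Z ∈ A s
  /-- KILL for members of the tree of `s` -/
  kmem : ∀ c s, c ≤ s → Xc X c ∈ A s → Xc X c ∈ Up B ∨ ∃ y b J H, s ∉ U b ∧ Pat U b J H ∧
    IsC B y ∧ X J H ∉ y ∧ Xc X c ∈ y
  /-- self-payment -/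
  self : ∀ R m H, IsSh (R, m) → (R, m) ∉ H → (∀ j ∈ H, IsSh j) →
    (∀ R', ¬ Full (insert (R, m) H) R') → (m ≠ la R → (R, la R) ∉ H) →
    X ∅ (insert (R, m) H) ∈ Up B → X ∅ H ∈ Up B
  /-- KILLN -/
  zero : X ∅ ∅ ∉ Up B

theorem ObjB.obj [Finite P] {B : Set (ℕ → ℕ)} {U : P → Set P} {A : P → Set (ℕ → ℕ)}
    {M : Set P → Set (ℕ → ℕ)} {O V : P → ℕ → ℕ} {Y : Set P → P → ℕ → ℕ}
    {X : Set P → Set (Set P × P) → ℕ → ℕ} {la : Set P → P} (hU : UCF P U) (hB : ClosedC B)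
    (h : ObjB B U A M O V Y X la) : Obj B U A M O V Y X la where
  clsA := h.clsA
  clsW := h.clsW
  clsF := h.clsF
  meq := h.meq
  full := h.full
  nc := h.nc
  oA := h.oA
  xo := h.xo
  xv := h.xv
  xy := h.xy
  xl := h.xl
  hit := h.hit
  rem := h.rem
  rsh := h.rsh
  list := h.list
  kill c s hcs hc := (h.kmem c s hcs hc).resolve_left (xB hU hB h.rem h.self h.zero c)

end Pool.Agent.Lib.MP_d48993_lc.Real
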